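import Pool.Agent.Q103.KO.Stm1

set_option autoImplicit false

/-! Job KO-E3 of helper103's project KO: normalization. -/

namespace Pool.Agent.Q153.KO

open Finset Filter Topology Metric
open Pool.Agent.Q103.KO

lemma fn_mul {x y : DK} {z : ℂ} (hz : z ∈ Dm) (hx : Reg x z) (hy : Reg y z) :
    Fn (x * y) z = Fn x z * Fn y z := (Fn_mul hz hx hy).self_of_nhds

lemma coe_odr {x : DK} (hx : x ≠ 0) {z : ℂ} (hz : z ∈ Dm) :
    ((((odr x z).untopD 0 : ℤ)) : WithTop ℤ) = odr x z := by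
  obtain ⟨m, hm⟩ := WithTop.ne_top_iff_exists.1 (odr_ne_top hx hz)
  rw [← hm]
  rfl

lemma lin_mero (a : ℂ) : MeromorphicOn (fun w : ℂ => w - a) Dm := fun _ _ =>
  ((analyticAt_id.sub analyticAt_const : AnalyticAt ℂ (fun w : ℂ => w - a) _)).meromorphicAt

lemma lin_ord (z : ℂ) : meromorphicOrderAt (fun w : ℂ => w - z) z = (1 : ℤ) := by
  have h : AnalyticAt ℂ (fun w : ℂ => w - z) z := analyticAt_id.sub analyticAt_const
  rw [meromorphicOrderAt_eq_int_iff h.meromorphicAt]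
  refine ⟨fun _ => 1, analyticAt_const, one_ne_zero, ?_⟩
  refine Filter.Eventually.of_forall fun w => ?_
  rw [zpow_one, smul_eq_mul, mul_one]

/-- the linear factor with the zero `a`, with the value `1` at `0` -/
noncomputable def lin (a : ℂ) : DK := algebraMap ℂ DK (-a⁻¹) * cl (fun w : ℂ => w - a) (lin_mero a)

lemma odr_lin {a : ℂ} (ha : a ≠ 0) {z : ℂ} (hz : z ∈ Dm) :
    odr (lin a) z = ((if z = a then (1 : ℤ) else 0 : ℤ) : WithTop ℤ) := by
  have h1 : odr (algebraMap ℂ DK (-a⁻¹)) z = 0 := by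
    rw [odr_zero_iff hz, (Fn_const _ hz).self_of_nhds]
    exact neg_ne_zero.2 (inv_ne_zero ha)
  rw [lin, odr_mul _ _ hz, h1, zero_add]
  by_cases hza : z = a
  · subst hza
    rw [if_pos rfl, odr_cl _ hz]
    exact lin_ord z
  · rw [if_neg hza]
    have h2 : odr (cl (fun w : ℂ => w - a) (lin_mero a)) z = 0 := by
      rw [odr_zero_iff hz]
      have h3 : AnalyticAt ℂ (fun w : ℂ => w - a) z := analyticAt_id.sub analyticAt_const
      rw [(Fn_cl (lin_mero a) hz h3).self_of_nhds]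
      exact sub_ne_zero.2 hza
    rw [h2]
    rfl

/-- holomorphic at `0` with the value `1` -/
def OneAt (x : DK) : Prop := Reg x 0 ∧ Fn x 0 = 1

lemma oneAt_one : OneAt 1 := by
  have h := reg_const 1 zero_mem_Dm
  have h2 := (Fn_const 1 zero_mem_Dm).self_of_nhds
  rw [map_one] at h h2
  exact ⟨h, h2⟩

lemma OneAt.mul {x y : DK} (hx : OneAt x) (hy : OneAt y) : OneAt (x * y) := by
  refine ⟨hx.1.mul hy.1 zero_mem_Dm, ?_⟩
  rw [fn_mul zero_mem_Dm hx.1 hy.1, hx.2, hy.2, mul_one]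

lemma OneAt.pow {x : DK} (hx : OneAt x) (n : ℕ) : OneAt (x ^ n) := by
  induction n with
  | zero => rw [pow_zero]; exact oneAt_one
  | succ n ih => rw [pow_succ]; exact ih.mul hx

lemma OneAt.prod {I : Type} (s : Finset I) (f : I → DK) (h : ∀ i ∈ s, OneAt (f i)) :
    OneAt (∏ i ∈ s, f i) := by
  classical
  induction s using Finset.induction_on with
  | empty => rw [Finset.prod_empty]; exact oneAt_one
  | insert a s ha ih =>
    rw [Finset.prod_insert ha]
    exact (h a (Finset.mem_insert_self _ _)).mul (ih fun i hi => h i (Finset.mem_insert_of_mem hi))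

lemma oneAt_lin {a : ℂ} (ha : a ≠ 0) : OneAt (lin a) := by
  have h3 : AnalyticAt ℂ (fun w : ℂ => w - a) 0 := analyticAt_id.sub analyticAt_const
  have h4 := Fn_cl (lin_mero a) zero_mem_Dm h3
  have h5 : Reg (cl (fun w : ℂ => w - a) (lin_mero a)) 0 := h3.congr h4.symm
  have h6 := reg_const (-a⁻¹) zero_mem_Dm
  refine ⟨h6.mul h5 zero_mem_Dm, ?_⟩
  have h7 : Fn (algebraMap ℂ DK (-a⁻¹)) 0 = -a⁻¹ := (Fn_const _ zero_mem_Dm).self_of_nhds
  have h8 : Fn (cl (fun w : ℂ => w - a) (lin_mero a)) 0 = 0 - a := h4.self_of_nhds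
  rw [lin, fn_mul zero_mem_Dm h6 h5, h7, h8]
  field_simp
  simp

lemma odr_prod {I : Type} (s : Finset I) (f : I → DK) {z : ℂ} (hz : z ∈ Dm) (o : I → ℤ)
    (h : ∀ i ∈ s, odr (f i) z = ((o i : ℤ) : WithTop ℤ)) :
    odr (∏ i ∈ s, f i) z = ((∑ i ∈ s, o i : ℤ) : WithTop ℤ) := by
  classical
  induction s using Finset.induction_on with
  | empty =>
    rw [Finset.prod_empty, Finset.sum_empty, odr_one hz]
    rfl
  | insert a s ha ih =>
    rw [Finset.prod_insert ha, Finset.sum_insert ha, odr_mul _ _ hz,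
      ih (fun i hi => h i (Finset.mem_insert_of_mem hi)), h a (Finset.mem_insert_self _ _)]
    push_cast
    rfl

/-- an element with prescribed zeros -/
lemma exists_zeros (S : Finset ℂ) (hS : ∀ a ∈ S, a ≠ 0) (m : ℂ → ℕ) :
    ∃ e : DK, OneAt e ∧ ∀ z ∈ Dm, odr e z = (((if z ∈ S then (m z : ℤ) else 0 : ℤ)) : WithTop ℤ) := by
  classical
  refine ⟨∏ a ∈ S, lin a ^ m a, OneAt.prod _ _ fun a ha => (oneAt_lin (hS a ha)).pow _, ?_⟩
  intro z hz
  rw [odr_prod S _ hz (fun a => if z = a then (m a : ℤ) else 0)]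
  · congr 1
    rw [Finset.sum_ite_eq]
  · intro a ha
    rw [odr_pow _ hz, odr_lin (hS a ha) hz]
    by_cases hza : z = a
    · rw [if_pos hza, if_pos hza]
      simp
    · rw [if_neg hza, if_neg hza]
      simp

theorem t_nrm : S_nrm := by
  classical
  intro N u hu0 hu
  have hune : ∀ i, u i ≠ 0 := by
    intro i h
    apply (hu i).2
    rw [h]
    have h2 := (Fn_const 0 zero_mem_Dm).self_of_nhds
    rw [map_zero] at h2
    exact h2
  have hsub : ball (0 : ℂ) 7 ⊆ Dm := ball_subset_ball (by norm_num)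
  have hsub' : closedBall (0 : ℂ) 7 ⊆ Dm := closedBall_subset_ball (by norm_num)
  -- the orders
  obtain ⟨o, ho⟩ : ∃ o : Fin (N + 1) → ℂ → ℤ, ∀ i z, o i z = (odr (u i) z).untopD 0 :=
    ⟨_, fun _ _ => rfl⟩
  have hoc : ∀ i, ∀ z ∈ Dm, odr (u i) z = ((o i z : ℤ) : WithTop ℤ) := by
    intro i z hz
    rw [ho]
    exact (coe_odr (hune i) hz).symm
  have ho0 : ∀ z ∈ Dm, o 0 z = 0 := by
    intro z hz
    rw [ho, hu0, odr_one hz]
    rfl
  obtain ⟨m, hm⟩ : ∃ m : ℂ → ℕ, ∀ z, m z = Finset.univ.sup fun i => (-(o i z)).toNat :=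
    ⟨_, fun _ => rfl⟩
  have hm1 : ∀ i z, 0 ≤ o i z + m z := by
    intro i z
    have h : (-(o i z)).toNat ≤ m z := by
      rw [hm]
      exact Finset.le_sup (f := fun i => (-(o i z)).toNat) (Finset.mem_univ i)
    omega
  have hm2 : ∀ z ∈ Dm, ∃ i, o i z + m z = 0 := by
    intro z hz
    obtain ⟨i, -, hi⟩ := Finset.exists_mem_eq_sup Finset.univ ⟨(0 : Fin (N + 1)), Finset.mem_univ _⟩
      (fun i => (-(o i z)).toNat)
    rw [← hm] at hi
    by_cases h0 : m z = 0
    · exact ⟨0, by rw [ho0 z hz, h0]; rfl⟩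
    · exact ⟨i, by omega⟩
  -- finitely many poles
  set S₀ : Set ℂ := {z | z ∈ closedBall (0 : ℂ) 7 ∧ m z ≠ 0} with hS₀
  have hfin : S₀.Finite := by
    by_contra hinf
    obtain ⟨x, hx, hacc⟩ := Set.Infinite.exists_accPt_of_subset_isCompact hinf
      (isCompact_closedBall (0 : ℂ) 7) (fun z hz => hz.1)
    have hxD : x ∈ Dm := hsub' hx
    rw [accPt_iff_frequently_nhdsNE] at hacc
    apply hacc
    have h1 : ∀ i, ∀ᶠ z in 𝓝[≠] x, AnalyticAt ℂ (Fn (u i)) z :=
      fun i => cod_ev (mero_an (Fn_mero (u i))) hxD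
    have h2 : ∀ᶠ z in 𝓝[≠] x, ∀ i, AnalyticAt ℂ (Fn (u i)) z := eventually_all.2 h1
    have h3 : ∀ᶠ z in 𝓝[≠] x, z ∈ Dm := nhdsWithin_le_nhds (Dm_nhds hxD)
    filter_upwards [h2, h3] with z hz hzD hzS
    apply hzS.2
    rw [hm]
    apply Nat.eq_zero_of_le_zero
    refine Finset.sup_le fun i _ => ?_
    have h4 : 0 ≤ odr (u i) z := (reg_iff hzD).1 (hz i)
    rw [hoc i z hzD] at h4
    have h5 : 0 ≤ o i z := by exact_mod_cast h4
    omega
  obtain ⟨e, he1, he2⟩ := exists_zeros hfin.toFinset (by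
    intro a ha ha0
    rw [Set.Finite.mem_toFinset] at ha
    subst ha0
    apply ha.2
    rw [hm]
    apply Nat.eq_zero_of_le_zero
    refine Finset.sup_le fun i _ => ?_
    have h4 : 0 ≤ odr (u i) 0 := (reg_iff zero_mem_Dm).1 (hu i).1
    rw [hoc i 0 zero_mem_Dm] at h4
    have h5 : 0 ≤ o i 0 := by exact_mod_cast h4
    omega) m
  have hem : ∀ z ∈ ball (0 : ℂ) 7, odr e z = ((m z : ℤ) : WithTop ℤ) := by
    intro z hz
    rw [he2 z (hsub hz)]
    congr 1
    by_cases h : z ∈ hfin.toFinset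
    · rw [if_pos h]
    · rw [if_neg h]
      rw [Set.Finite.mem_toFinset] at h
      by_contra h2
      apply h
      refine ⟨ball_subset_closedBall hz, fun h3 => h2 ?_⟩
      rw [h3]
      rfl
  have hene : e ≠ 0 := by
    intro h
    have h1 := he1.2
    rw [h] at h1
    have h2 := (Fn_const 0 zero_mem_Dm).self_of_nhds
    rw [map_zero] at h2
    rw [h2] at h1
    exact zero_ne_one h1
  have hodr : ∀ i, ∀ z ∈ ball (0 : ℂ) 7, odr (e * u i) z = ((m z + o i z : ℤ) : WithTop ℤ) := by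
    intro i z hz
    rw [odr_mul _ _ (hsub hz), hem z hz, hoc i z (hsub hz)]
    push_cast
    rfl
  have hreg : ∀ i, ∀ z ∈ ball (0 : ℂ) 7, Reg (e * u i) z := by
    intro i z hz
    rw [reg_iff (hsub hz), hodr i z hz]
    have := hm1 i z
    have h2 : 0 ≤ (m z : ℤ) + o i z := by omega
    exact_mod_cast h2
  have hex : ∀ z ∈ ball (0 : ℂ) 7, ∃ i, Fn (e * u i) z ≠ 0 := by
    intro z hz
    obtain ⟨i, hi⟩ := hm2 z (hsub hz)
    refine ⟨i, ?_⟩
    rw [← odr_zero_iff (hsub hz), hodr i z hz]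
    have : (m z : ℤ) + o i z = 0 := by omega
    rw [this]
    rfl
  refine ⟨fun i => Fn (e * u i), ?_, ?_, hex, ?_, ?_⟩
  · intro i z hz
    exact (hreg i z hz).differentiableAt.differentiableWithinAt
  · intro i
    change Fn (e * u i) 0 = _
    rw [fn_mul zero_mem_Dm he1.1 (hu i).1, he1.2, one_mul]
  · intro z hz hU i
    have hU' : Fn e z ≠ 0 := by
      change Fn (e * u 0) z ≠ 0 at hU
      rw [hu0, mul_one] at hU
      exact hU
    have h1 : odr e z = 0 := (odr_zero_iff (hsub hz)).2 hU'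
    have hmz : m z = 0 := by
      rw [hem z hz] at h1
      exact_mod_cast h1
    have h2 : Reg (u i) z := by
      rw [reg_iff (hsub hz), hoc i z (hsub hz)]
      have := hm1 i z
      rw [hmz] at this
      have h3 : 0 ≤ o i z := by simpa using this
      exact_mod_cast h3
    have h3 : Reg e z := by
      rw [reg_iff (hsub hz), h1]
    refine ⟨h2, ?_⟩
    change Fn (e * u i) z = Fn (u i) z * Fn (e * u 0) z
    rw [hu0, mul_one, fn_mul (hsub hz) h3 h2, mul_comm]
  · intro F hF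
    have hQ : ∀ z ∈ ball (0 : ℂ) 7, Reg (F * e⁻¹) z := by
      intro z hz
      obtain ⟨i, hi⟩ := hex z hz
      have h1 : odr (e * u i) z = 0 := (odr_zero_iff (hsub hz)).2 hi
      have h2 : F * u i = (F * e⁻¹) * (e * u i) := by
        field_simp
      have h3 := hF i z (hsub hz)
      rw [reg_iff (hsub hz), h2, odr_mul _ _ (hsub hz), h1, add_zero] at h3
      exact (reg_iff (hsub hz)).2 h3
    refine ⟨Fn (F * e⁻¹), ?_, ?_⟩
    · intro z hz
      exact (hQ z hz).differentiableAt.differentiableWithinAt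
    · intro i z hz
      have h2 : F * u i = (F * e⁻¹) * (e * u i) := by
        field_simp
      change Fn (F * e⁻¹) z * Fn (e * u i) z = _
      rw [h2, fn_mul (hsub hz) (hQ z hz) (hreg i z hz)]

end Pool.Agent.Q153.KO
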