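import Pool.Agent.Q103.KO.Stm2
import Pool.Agent.Q103.EC.Stm3

set_option autoImplicit false

/-! Job KO-F1 of helper103's project KO: spreading out, with derivations. -/

namespace Pool.Agent.Q153.KO

open Finset Polynomial
open Pool.Agent.TH466.QG
open Pool.Agent.Q103.EC Pool.Agent.Q103.KO

section

variable {k K E : Type} [Field k] [Field K] [Algebra k K] [Field E] [Algebra k E]

/-- polynomial expressions specialize -/
lemma sp_aeval (S : Sp k K E) {ι : Type} {ρ : ι → K} {ρ' : ι → E} (h : ∀ i, S.T (ρ i) (ρ' i))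
    (G : MvPolynomial ι k) : S.T (MvPolynomial.aeval ρ G) (MvPolynomial.aeval ρ' G) := by
  induction G using MvPolynomial.induction_on with
  | C a =>
    rw [MvPolynomial.aeval_C, MvPolynomial.aeval_C]
    exact S.const a
  | add p q hp hq =>
    rw [map_add, map_add]
    exact S.add hp hq
  | mul_X p i hp =>
    rw [map_mul, map_mul, MvPolynomial.aeval_X, MvPolynomial.aeval_X]
    exact S.mul hp (h i)

/-- the chain rule -/
lemma der_aeval (D : Derivation k K K) {ι : Type} [Fintype ι] (ρ : ι → K) (G : MvPolynomial ι k) :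
    D (MvPolynomial.aeval ρ G) =
      ∑ i, MvPolynomial.aeval ρ (MvPolynomial.pderiv i G) * D (ρ i) := by
  classical
  induction G using MvPolynomial.induction_on with
  | C a =>
    rw [MvPolynomial.aeval_C, D.map_algebraMap]
    symm
    refine Finset.sum_eq_zero fun i _ => ?_
    rw [MvPolynomial.pderiv_C, map_zero, zero_mul]
  | add p q hp hq =>
    rw [map_add, map_add, hp, hq, ← Finset.sum_add_distrib]
    refine Finset.sum_congr rfl fun i _ => ?_
    rw [map_add, map_add, add_mul]
  | mul_X p j hp =>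
    rw [map_mul, MvPolynomial.aeval_X, D.leibniz, hp]
    have h1 : ∀ i, MvPolynomial.aeval ρ (MvPolynomial.pderiv i (p * MvPolynomial.X j)) * D (ρ i) =
        (if j = i then MvPolynomial.aeval ρ p * D (ρ i) else 0) +
          ρ j * (MvPolynomial.aeval ρ (MvPolynomial.pderiv i p) * D (ρ i)) := by
      intro i
      rw [MvPolynomial.pderiv_mul, MvPolynomial.pderiv_X, map_add, map_mul, map_mul,
        MvPolynomial.aeval_X, add_mul]
      by_cases hij : j = i
      · subst hij
        rw [Pi.single_eq_same, map_one, if_pos rfl]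
        ring
      · rw [Pi.single_eq_of_ne hij, map_zero, if_neg hij]
        ring
    simp only [h1]
    rw [Finset.sum_add_distrib, Finset.sum_ite_eq, if_pos (Finset.mem_univ j), ← Finset.mul_sum]
    simp only [smul_eq_mul]

/-- a polynomial relation whose derivative does not vanish -/
lemma exists_rel [CharZero k] {w : ℕ} {t : Fin w → K} (ht : IsTranscendenceBasis k t) (ϑ : K) :
    ∃ μ : MvPolynomial (Option (Fin w)) k,
      MvPolynomial.aeval (fun o : Option (Fin w) => o.elim ϑ t) μ = 0 ∧
      MvPolynomial.aeval (fun o : Option (Fin w) => o.elim ϑ t) (MvPolynomial.pderiv none μ) ≠ 0 := by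
  classical
  set f : MvPolynomial (Fin w) k →+* K :=
    ((MvPolynomial.aeval t : MvPolynomial (Fin w) k →ₐ[k] K) : MvPolynomial (Fin w) k →+* K)
    with hf
  have hinj : Function.Injective f := ht.1
  -- some relation
  have hex : ∃ n : ℕ, ∃ P : (MvPolynomial (Fin w) k)[X], P ≠ 0 ∧ P.natDegree = n ∧
      P.eval₂ f ϑ = 0 := by
    have halg := ht.isAlgebraic
    obtain ⟨p, hp0, hp⟩ := halg.isAlgebraic ϑ
    let e := ht.1.aevalEquiv
    refine ⟨_, p.map (e.symm : Algebra.adjoin k (Set.range t) →+* MvPolynomial (Fin w) k), ?_, rfl, ?_⟩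
    · intro h
      apply hp0
      exact (Polynomial.map_eq_zero_iff e.symm.injective).1 h
    · rw [Polynomial.eval₂_map]
      have h1 : f.comp (e.symm : Algebra.adjoin k (Set.range t) →+* MvPolynomial (Fin w) k) =
          algebraMap (Algebra.adjoin k (Set.range t)) K := by
        ext a
        change f (e.symm a) = (a : K)
        have h2 : ((e (e.symm a) : Algebra.adjoin k (Set.range t)) : K) = f (e.symm a) :=
          ht.1.aevalEquiv_apply_coe (e.symm a)
        rw [← h2, e.apply_symm_apply]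
      rw [h1]
      exact hp
  obtain ⟨P, hP0, hPn, hP⟩ := Nat.find_spec hex
  have hmin : ∀ Q : (MvPolynomial (Fin w) k)[X], Q ≠ 0 → Q.eval₂ f ϑ = 0 →
      Nat.find hex ≤ Q.natDegree := fun Q h1 h2 => Nat.find_min' hex ⟨Q, h1, rfl, h2⟩
  have hdeg : P.natDegree ≠ 0 := by
    intro h0
    rw [Polynomial.eq_C_of_natDegree_eq_zero h0, Polynomial.eval₂_C] at hP
    have h1 : P.coeff 0 = 0 := hinj (by rw [hP, map_zero])
    apply hP0
    rw [Polynomial.eq_C_of_natDegree_eq_zero h0, h1, Polynomial.C_0]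
  have hder0 : derivative P ≠ 0 := by
    intro h0
    exact hdeg (Polynomial.natDegree_eq_zero_of_derivative_eq_zero h0)
  have hder : (derivative P).eval₂ f ϑ ≠ 0 := by
    intro h0
    have h1 := hmin _ hder0 h0
    have h2 := Polynomial.natDegree_derivative_lt hdeg
    omega
  -- transfer
  let Φ : (MvPolynomial (Fin w) k)[X] →+* MvPolynomial (Option (Fin w)) k :=
    Polynomial.eval₂RingHom
      ((MvPolynomial.rename (some : Fin w → Option (Fin w)) :
        MvPolynomial (Fin w) k →ₐ[k] MvPolynomial (Option (Fin w)) k) :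
        MvPolynomial (Fin w) k →+* MvPolynomial (Option (Fin w)) k) (MvPolynomial.X none)
  have hΦ : ∀ Q, MvPolynomial.aeval (fun o : Option (Fin w) => o.elim ϑ t) (Φ Q) = Q.eval₂ f ϑ := by
    intro Q
    change MvPolynomial.aeval (fun o : Option (Fin w) => o.elim ϑ t) (Polynomial.eval₂ _ _ Q) = _
    induction Q using Polynomial.induction_on' with
    | add p q hp hq => rw [Polynomial.eval₂_add, map_add, hp, hq, Polynomial.eval₂_add]
    | monomial n a =>
      rw [Polynomial.eval₂_monomial, Polynomial.eval₂_monomial, map_mul, map_pow,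
        MvPolynomial.aeval_X]
      congr 1
      change MvPolynomial.aeval _ (MvPolynomial.rename some a) = _
      rw [MvPolynomial.aeval_rename]
      rfl
  have hΦd : ∀ Q, MvPolynomial.pderiv none (Φ Q) = Φ (derivative Q) := by
    intro Q
    induction Q using Polynomial.induction_on' with
    | add p q hp hq => rw [map_add, map_add, hp, hq, derivative_add, map_add]
    | monomial n a =>
      have h1 : MvPolynomial.pderiv none (MvPolynomial.rename some a :
          MvPolynomial (Option (Fin w)) k) = 0 := by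
        apply MvPolynomial.pderiv_eq_zero_of_notMem_vars
        intro h
        have h2 := MvPolynomial.vars_rename some a h
        rw [Finset.mem_image] at h2
        obtain ⟨j, -, hj⟩ := h2
        exact Option.some_ne_none j hj
      rw [derivative_monomial]
      change MvPolynomial.pderiv none (Polynomial.eval₂ _ _ _) = Polynomial.eval₂ _ _ _
      rw [Polynomial.eval₂_monomial, Polynomial.eval₂_monomial, MvPolynomial.pderiv_mul,
        MvPolynomial.pderiv_pow, MvPolynomial.pderiv_X_self]
      change MvPolynomial.pderiv none (MvPolynomial.rename some a) * _ + _ = _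
      rw [h1, zero_mul, zero_add, mul_one, map_mul, map_natCast, mul_assoc]
  refine ⟨Φ P, ?_, ?_⟩
  · rw [hΦ, hP]
  · rw [hΦd, hΦ]
    exact hder

end

theorem t_spd : S_spr → S_spd := by
  intro hspr k K _ _ _ _ σ x hx w t ht δ hδ Θ hΘ
  classical
  choose μ hμ0 hμ1 using fun ϑ : K => exists_rel ht ϑ
  obtain ⟨H1, hH1, hS⟩ := hspr k K σ x hx
    (((Θ ∪ Set.range t) ∪ ⋃ j, (δ j) '' Θ) ∪ (fun ϑ : K => (MvPolynomial.aeval
      (fun o : Option (Fin w) => o.elim ϑ t) (MvPolynomial.pderiv none (μ ϑ)))⁻¹) '' Θ)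
    (((hΘ.union (Set.finite_range t)).union (Set.finite_iUnion fun j => hΘ.image _)).union
      (hΘ.image _))
  obtain ⟨H2, hH2, hG⟩ := exists_den hx hΘ
  refine ⟨H1 * H2, ?_, ?_, ?_⟩
  · rw [map_mul]
    exact mul_ne_zero hH1 hH2
  · intro ϑ hϑ
    obtain ⟨G, hG'⟩ := hG ϑ hϑ
    refine ⟨G * H1, ?_⟩
    rw [map_mul, map_mul, ← hG']
    ring
  · intro E _ _ z hz hzH
    have hzH1 : MvPolynomial.aeval z H1 ≠ 0 := by
      intro h
      apply hzH
      rw [map_mul, h, zero_mul]
    obtain ⟨S, hSx, hSΘ⟩ := hS E z hz hzH1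
    refine ⟨S, hSx, fun ϑ hϑ => hSΘ ϑ (Or.inl (Or.inl (Or.inl hϑ))), ?_⟩
    intro D ϑ hϑ s hs
    have hτ : ∀ j, ∃ τ, S.T (t j) τ := fun j => hSΘ _ (Or.inl (Or.inl (Or.inr ⟨j, rfl⟩)))
    have hβ : ∀ j, ∃ β, S.T (δ j ϑ) β := fun j =>
      hSΘ _ (Or.inl (Or.inr (Set.mem_iUnion.2 ⟨j, ϑ, hϑ, rfl⟩)))
    choose τ hτ using hτ
    choose β hβ using hβ
    refine ⟨τ, β, hτ, hβ, ?_⟩
    set ρ : Option (Fin w) → K := fun o => o.elim ϑ t with hρ
    set ρ' : Option (Fin w) → E := fun o => o.elim s τ with hρ'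
    have hρρ : ∀ o, S.T (ρ o) (ρ' o) := by
      intro o
      cases o with
      | none => exact hs
      | some j => exact hτ j
    have hY : MvPolynomial.aeval ρ' (MvPolynomial.pderiv none (μ ϑ)) ≠ 0 :=
      S.ne_zero (sp_aeval S hρρ _) (hSΘ _ (Or.inr ⟨ϑ, hϑ, rfl⟩)) (hμ1 ϑ)
    have hμ' : MvPolynomial.aeval ρ' (μ ϑ) = 0 := S.eq_zero (sp_aeval S hρρ _) (hμ0 ϑ)
    -- the derivations `δ j`
    have h1 : ∀ j, MvPolynomial.aeval ρ' (MvPolynomial.pderiv none (μ ϑ)) * β j +
        MvPolynomial.aeval ρ' (MvPolynomial.pderiv (some j) (μ ϑ)) = 0 := by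
      intro j
      have h2 := der_aeval (δ j) ρ (μ ϑ)
      have h2' : MvPolynomial.aeval ρ (μ ϑ) = 0 := hμ0 ϑ
      rw [h2', map_zero, Fintype.sum_option] at h2
      have h3 : ∑ i : Fin w, MvPolynomial.aeval ρ (MvPolynomial.pderiv (some i) (μ ϑ)) *
          (δ j) (ρ (some i)) = MvPolynomial.aeval ρ (MvPolynomial.pderiv (some j) (μ ϑ)) := by
        rw [Finset.sum_eq_single j]
        · change _ * (δ j) (t j) = _
          rw [hδ, if_pos rfl, mul_one]
        · intro i _ hij
          change _ * (δ j) (t i) = 0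
          rw [hδ, if_neg (Ne.symm hij), mul_zero]
        · intro h
          exact absurd (Finset.mem_univ j) h
      rw [h3] at h2
      have h4 : S.T (MvPolynomial.aeval ρ (MvPolynomial.pderiv none (μ ϑ)) * (δ j) (ρ none) +
          MvPolynomial.aeval ρ (MvPolynomial.pderiv (some j) (μ ϑ)))
          (MvPolynomial.aeval ρ' (MvPolynomial.pderiv none (μ ϑ)) * β j +
          MvPolynomial.aeval ρ' (MvPolynomial.pderiv (some j) (μ ϑ))) :=
        S.add (S.mul (sp_aeval S hρρ _) (hβ j)) (sp_aeval S hρρ _)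
      exact S.eq_zero h4 h2.symm
    -- the derivation `D`
    have h5 := der_aeval D ρ' (μ ϑ)
    rw [hμ', map_zero, Fintype.sum_option] at h5
    have h6 : ∑ i : Fin w, MvPolynomial.aeval ρ' (MvPolynomial.pderiv (some i) (μ ϑ)) *
        D (ρ' (some i)) = - (MvPolynomial.aeval ρ' (MvPolynomial.pderiv none (μ ϑ)) *
          ∑ j, β j * D (τ j)) := by
      rw [Finset.mul_sum, ← Finset.sum_neg_distrib]
      refine Finset.sum_congr rfl fun j _ => ?_
      change _ * D (τ j) = _
      linear_combination (D (τ j)) * h1 j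
    rw [h6] at h5
    have h7 : MvPolynomial.aeval ρ' (MvPolynomial.pderiv none (μ ϑ)) *
        (D s - ∑ j, β j * D (τ j)) = 0 := by
      have h8 : D (ρ' none) = D s := rfl
      rw [h8] at h5
      linear_combination (-1 : E) * h5
    rcases mul_eq_zero.1 h7 with h | h
    · exact absurd h hY
    · exact sub_eq_zero.1 h

end Pool.Agent.Q153.KO
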